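import Mathlib

/-!
# Every one-troughed travelling wave of the piecewise-linear beam equation is even

The proof: on the trough the linear equation `z'''' + c² z'' + ξ z = 1 - ξ` has the second first
integral `z'' (1 - ξ - ξ z) - c² z''² / 2 - z'''² / 2 + ξ z'² / 2`.  At both ends of the trough the
stable / unstable manifold conditions of the outer equation turn this quantity into
`-(1 - ξ) z'² / 2`.  Hence `|z'|` agrees at both ends, and so does the whole reflected Cauchy data.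
-/

open Filter Topology Set

namespace Pool.Agent.Results.MP_55ecfc_an.OneTroughedEven

/-- A function with vanishing derivative on `[b, ∞)` is constant there. -/
lemma const_right {F F' : ℝ → ℝ} (hF : ∀ t, HasDerivAt F (F' t) t) {b : ℝ}
    (h0 : ∀ t, b ≤ t → F' t = 0) : ∀ t, b ≤ t → F t = F b := by
  intro t ht
  refine constant_of_has_deriv_right_zero (a := b) (b := t) (f := F) ?_ ?_ t ⟨ht, le_rfl⟩
  · exact fun s _ => (hF s).continuousAt.continuousWithinAt
  · intro s hs
    have := (hF s).hasDerivWithinAt (s := Ici s)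
    rwa [h0 s hs.1] at this

/-- The stable-manifold conditions at the right end of the trough. -/
lemma stable_end (α k : ℝ) (hα : 0 < α) (hα1 : α ^ 2 < 1) (hk : 4 * α ^ 2 = 2 - k)
    (z z1 z2 z3 z4 : ℝ → ℝ) (d0 : ∀ t, HasDerivAt z (z1 t) t) (d1 : ∀ t, HasDerivAt z1 (z2 t) t)
    (d2 : ∀ t, HasDerivAt z2 (z3 t) t) (d3 : ∀ t, HasDerivAt z3 (z4 t) t) (b : ℝ)
    (hode : ∀ t, b ≤ t → z4 t + k * z2 t + z t = 0)
    (h0 : Tendsto z atTop (𝓝 0)) (h1 : Tendsto z1 atTop (𝓝 0)) :
    z2 b + 2 * α * z1 b + z b = 0 ∧ z3 b + 2 * α * z2 b + z1 b = 0 := by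
  -- the decaying factor
  set x : ℝ → ℝ := fun t => z2 t - 2 * α * z1 t + z t with hx
  set x' : ℝ → ℝ := fun t => z3 t - 2 * α * z2 t + z1 t with hx'
  set x'' : ℝ → ℝ := fun t => z4 t - 2 * α * z3 t + z2 t with hx''
  set y : ℝ → ℝ := fun t => z2 t + 2 * α * z1 t + z t with hy
  set y' : ℝ → ℝ := fun t => z3 t + 2 * α * z2 t + z1 t with hy'
  set y'' : ℝ → ℝ := fun t => z4 t + 2 * α * z3 t + z2 t with hy''
  have dx : ∀ t, HasDerivAt x (x' t) t := fun t =>
    ((d2 t).sub ((d1 t).const_mul (2 * α))).add (d0 t)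
  have dx' : ∀ t, HasDerivAt x' (x'' t) t := fun t =>
    ((d3 t).sub ((d2 t).const_mul (2 * α))).add (d1 t)
  have dy : ∀ t, HasDerivAt y (y' t) t := fun t =>
    ((d2 t).add ((d1 t).const_mul (2 * α))).add (d0 t)
  have dy' : ∀ t, HasDerivAt y' (y'' t) t := fun t =>
    ((d3 t).add ((d2 t).const_mul (2 * α))).add (d1 t)
  have ex : ∀ t, b ≤ t → x'' t = -2 * α * x' t - x t := by
    intro t ht
    have h := hode t ht
    simp only [hx, hx', hx'']
    have : k = 2 - 4 * α ^ 2 := by linarith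
    subst this
    linear_combination h
  have ey : ∀ t, b ≤ t → y'' t = 2 * α * y' t - y t := by
    intro t ht
    have h := hode t ht
    simp only [hy, hy', hy'']
    have : k = 2 - 4 * α ^ 2 := by linarith
    subst this
    linear_combination h
  -- exponentials
  have dexp : ∀ (s t : ℝ), HasDerivAt (fun t => Real.exp (s * t)) (Real.exp (s * t) * s) t := by
    intro s t
    have := ((hasDerivAt_id t).const_mul s).exp
    simpa using this
  -- P decays
  set P : ℝ → ℝ := fun t => x' t ^ 2 + 2 * α * (x t * x' t) + x t ^ 2 with hP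
  have dP : ∀ t, HasDerivAt P (2 * x' t * x'' t + 2 * α * (x' t * x' t + x t * x'' t)
      + 2 * x t * x' t) t := by
    intro t
    have h1 := (dx' t).pow 2
    have h2 := ((dx t).mul (dx' t)).const_mul (2 * α)
    have h3 := (dx t).pow 2
    have h := (h1.add h2).add h3
    exact h.congr_deriv (by push_cast; ring)
  have cP : ∀ t, b ≤ t → P t * Real.exp (2 * α * t) = P b * Real.exp (2 * α * b) := by
    have := const_right (F := fun t => P t * Real.exp (2 * α * t))
      (F' := fun t => (2 * x' t * x'' t + 2 * α * (x' t * x' t + x t * x'' t)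
      + 2 * x t * x' t) * Real.exp (2 * α * t) + P t * (Real.exp (2 * α * t) * (2 * α)))
      (fun t => (dP t).mul (dexp (2 * α) t)) (b := b) (by
        intro t ht
        simp only [hP]
        rw [ex t ht]
        ring)
    exact this
  have hPlim : Tendsto P atTop (𝓝 0) := by
    have h1 : Tendsto (fun t => P b * Real.exp (2 * α * b) * Real.exp (-(2 * α * t))) atTop
        (𝓝 (P b * Real.exp (2 * α * b) * 0)) := by
      refine Tendsto.const_mul _ ?_
      exact Real.tendsto_exp_neg_atTop_nhds_zero.comp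
        (tendsto_id.const_mul_atTop (by positivity))
    rw [mul_zero] at h1
    refine h1.congr' ?_
    filter_upwards [eventually_ge_atTop b] with t ht
    rw [← cP t ht, mul_assoc, ← Real.exp_add]
    simp
  have hxsq : ∀ t, (1 - α ^ 2) * x t ^ 2 ≤ P t := by
    intro t
    simp only [hP]
    nlinarith [sq_nonneg (x' t + α * x t)]
  have hx'sq : ∀ t, (1 - α ^ 2) * x' t ^ 2 ≤ P t := by
    intro t
    simp only [hP]
    nlinarith [sq_nonneg (α * x' t + x t)]
  have hδ : 0 < 1 - α ^ 2 := by linarith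
  have tozero : ∀ u : ℝ → ℝ, (∀ t, (1 - α ^ 2) * u t ^ 2 ≤ P t) → Tendsto u atTop (𝓝 0) := by
    intro u hu
    have h2 : Tendsto (fun t => u t ^ 2) atTop (𝓝 0) := by
      have h3 : Tendsto (fun t => (1 - α ^ 2)⁻¹ * P t) atTop (𝓝 ((1 - α ^ 2)⁻¹ * 0)) :=
        hPlim.const_mul _
      rw [mul_zero] at h3
      refine squeeze_zero (fun t => sq_nonneg _) (fun t => ?_) h3
      rw [le_inv_mul_iff₀ hδ]
      exact hu t
    have h4 : Tendsto (fun t => |u t|) atTop (𝓝 0) := by
      have h5 := (Real.continuous_sqrt.tendsto 0).comp h2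
      rw [Real.sqrt_zero] at h5
      refine h5.congr (fun t => ?_)
      simp [Real.sqrt_sq_eq_abs]
    exact tendsto_zero_iff_abs_tendsto_zero u |>.2 h4
  have hxlim := tozero x hxsq
  have hx'lim := tozero x' hx'sq
  -- y and y' tend to zero
  have hz2lim : Tendsto z2 atTop (𝓝 0) := by
    have h := (hxlim.add (h1.const_mul (2 * α))).sub h0
    simp only [mul_zero, add_zero, sub_zero] at h
    refine h.congr (fun t => ?_)
    simp only [hx]
    ring
  have hylim : Tendsto y atTop (𝓝 0) := by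
    have h := (hz2lim.add (h1.const_mul (2 * α))).add h0
    simp only [mul_zero, add_zero] at h
    exact h
  have hy'lim : Tendsto y' atTop (𝓝 0) := by
    have h := hx'lim.add (hz2lim.const_mul (4 * α))
    simp only [mul_zero, add_zero] at h
    refine h.congr (fun t => ?_)
    simp only [hx', hy']
    ring
  set Q : ℝ → ℝ := fun t => y' t ^ 2 - 2 * α * (y t * y' t) + y t ^ 2 with hQ
  have dQ : ∀ t, HasDerivAt Q (2 * y' t * y'' t - 2 * α * (y' t * y' t + y t * y'' t)
      + 2 * y t * y' t) t := by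
    intro t
    have h1 := (dy' t).pow 2
    have h2 := ((dy t).mul (dy' t)).const_mul (2 * α)
    have h3 := (dy t).pow 2
    have h := (h1.sub h2).add h3
    exact h.congr_deriv (by push_cast; ring)
  have cQ : ∀ t, b ≤ t → Q t * Real.exp (-(2 * α) * t) = Q b * Real.exp (-(2 * α) * b) := by
    have := const_right (F := fun t => Q t * Real.exp (-(2 * α) * t))
      (F' := fun t => (2 * y' t * y'' t - 2 * α * (y' t * y' t + y t * y'' t)
      + 2 * y t * y' t) * Real.exp (-(2 * α) * t)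
        + Q t * (Real.exp (-(2 * α) * t) * (-(2 * α))))
      (fun t => (dQ t).mul (dexp (-(2 * α)) t)) (b := b) (by
        intro t ht
        simp only [hQ]
        rw [ey t ht]
        ring)
    exact this
  have hQlim : Tendsto Q atTop (𝓝 0) := by
    have h := ((hy'lim.pow 2).sub ((hylim.mul hy'lim).const_mul (2 * α))).add (hylim.pow 2)
    simpa using h
  have hexplim : Tendsto (fun t => Real.exp (-(2 * α) * t)) atTop (𝓝 0) := by
    have : Tendsto (fun t => Real.exp (-(2 * α * t))) atTop (𝓝 0) :=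
      Real.tendsto_exp_neg_atTop_nhds_zero.comp (tendsto_id.const_mul_atTop (by positivity))
    refine this.congr (fun t => ?_)
    ring_nf
  have hprod : Tendsto (fun t => Q t * Real.exp (-(2 * α) * t)) atTop (𝓝 0) := by
    simpa using hQlim.mul hexplim
  have hconst : Tendsto (fun t => Q t * Real.exp (-(2 * α) * t)) atTop
      (𝓝 (Q b * Real.exp (-(2 * α) * b))) := by
    refine tendsto_const_nhds.congr' ?_
    filter_upwards [eventually_ge_atTop b] with t ht
    exact (cQ t ht).symm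
  have hQb : Q b = 0 := by
    have h := tendsto_nhds_unique hconst hprod
    have hpos := Real.exp_pos (-(2 * α) * b)
    exact (mul_eq_zero.1 h).resolve_right hpos.ne'
  have hyb : y b = 0 := by
    have h1 : (1 - α ^ 2) * y b ^ 2 ≤ 0 := by
      rw [← hQb]; simp only [hQ]; nlinarith [sq_nonneg (y' b - α * y b)]
    have h2 : y b ^ 2 ≤ 0 := by
      by_contra hcon
      push Not at hcon
      nlinarith [mul_pos hδ hcon]
    have h3 := le_antisymm h2 (sq_nonneg _)
    exact pow_eq_zero_iff (two_ne_zero) |>.1 h3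
  have hy'b : y' b = 0 := by
    have h1 : (1 - α ^ 2) * y' b ^ 2 ≤ 0 := by
      rw [← hQb]; simp only [hQ]; nlinarith [sq_nonneg (α * y' b - y b)]
    have h2 : y' b ^ 2 ≤ 0 := by
      by_contra hcon
      push Not at hcon
      nlinarith [mul_pos hδ hcon]
    have h3 := le_antisymm h2 (sq_nonneg _)
    exact pow_eq_zero_iff (two_ne_zero) |>.1 h3
  exact ⟨hyb, hy'b⟩


/-- The unstable-manifold conditions at the left end of the trough. -/
lemma unstable_end (α k : ℝ) (hα : 0 < α) (hα1 : α ^ 2 < 1) (hk : 4 * α ^ 2 = 2 - k)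
    (z z1 z2 z3 z4 : ℝ → ℝ) (d0 : ∀ t, HasDerivAt z (z1 t) t) (d1 : ∀ t, HasDerivAt z1 (z2 t) t)
    (d2 : ∀ t, HasDerivAt z2 (z3 t) t) (d3 : ∀ t, HasDerivAt z3 (z4 t) t) (a : ℝ)
    (hode : ∀ t, t ≤ a → z4 t + k * z2 t + z t = 0)
    (h0 : Tendsto z atBot (𝓝 0)) (h1 : Tendsto z1 atBot (𝓝 0)) :
    z2 a - 2 * α * z1 a + z a = 0 ∧ z3 a - 2 * α * z2 a + z1 a = 0 := by
  have dn : ∀ {f f' : ℝ → ℝ}, (∀ t, HasDerivAt f (f' t) t) →
      ∀ t, HasDerivAt (fun t => f (-t)) (-(f' (-t))) t := by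
    intro f f' hf t
    have := (hf (-t)).comp t (hasDerivAt_neg t)
    exact this.congr_deriv (by ring)
  have dn' : ∀ {f f' : ℝ → ℝ}, (∀ t, HasDerivAt f (f' t) t) →
      ∀ t, HasDerivAt (fun t => -(f (-t))) (f' (-t)) t := by
    intro f f' hf t
    have := (dn hf t).neg
    exact this.congr_deriv (by ring)
  have h0' : Tendsto (fun t => z (-t)) atTop (𝓝 0) := h0.comp tendsto_neg_atTop_atBot
  have h1' : Tendsto (fun t => -(z1 (-t))) atTop (𝓝 0) := by
    have := (h1.comp tendsto_neg_atTop_atBot).neg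
    simpa using this
  obtain ⟨e1, e2⟩ := stable_end α k hα hα1 hk (fun t => z (-t)) (fun t => -(z1 (-t)))
    (fun t => z2 (-t)) (fun t => -(z3 (-t))) (fun t => z4 (-t)) (dn d0) (dn' d1) (dn d2) (dn' d3)
    (-a) (fun t ht => hode (-t) (by linarith)) h0' h1'
  simp only [neg_neg] at e1 e2
  constructor <;> linarith

/-- The right-hand side of the wave equation, as a first-order system. -/
noncomputable def field (k ξ : ℝ) (p : ℝ × ℝ × ℝ × ℝ) : ℝ × ℝ × ℝ × ℝ :=
  (p.2.1, p.2.2.1, p.2.2.2, 1 + ξ * max (-(p.1 + 1)) 0 - max (p.1 + 1) 0 - k * p.2.2.1)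

lemma lipschitz_field (k ξ : ℝ) : ∃ K : NNReal, LipschitzWith K (field k ξ) := by
  have l1 : LipschitzWith 1 (fun p : ℝ × ℝ × ℝ × ℝ => p.1) := LipschitzWith.prod_fst
  have l2 : LipschitzWith 1 (fun p : ℝ × ℝ × ℝ × ℝ => p.2) := LipschitzWith.prod_snd
  have l21 : LipschitzWith (1 * 1) (fun p : ℝ × ℝ × ℝ × ℝ => p.2.1) :=
    (LipschitzWith.prod_fst (α := ℝ) (β := ℝ × ℝ)).comp l2
  have l22 : LipschitzWith (1 * 1) (fun p : ℝ × ℝ × ℝ × ℝ => p.2.2) :=
    (LipschitzWith.prod_snd (α := ℝ) (β := ℝ × ℝ)).comp l2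
  have l221 : LipschitzWith (1 * (1 * 1)) (fun p : ℝ × ℝ × ℝ × ℝ => p.2.2.1) :=
    (LipschitzWith.prod_fst (α := ℝ) (β := ℝ)).comp l22
  have l222 : LipschitzWith (1 * (1 * 1)) (fun p : ℝ × ℝ × ℝ × ℝ => p.2.2.2) :=
    (LipschitzWith.prod_snd (α := ℝ) (β := ℝ)).comp l22
  have hg : LipschitzWith 1 (fun p : ℝ × ℝ × ℝ × ℝ => p.1 + 1) := by
    simpa using l1.add (LipschitzWith.const (1 : ℝ))
  have hpos : LipschitzWith 1 (fun p : ℝ × ℝ × ℝ × ℝ => max (p.1 + 1) 0) := hg.max_const 0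
  have hneg : LipschitzWith 1 (fun p : ℝ × ℝ × ℝ × ℝ => max (-(p.1 + 1)) 0) := hg.neg.max_const 0
  have hξ := (lipschitzWith_smul (α := ℝ) (β := ℝ) ξ).comp hneg
  have hk := (lipschitzWith_smul (α := ℝ) (β := ℝ) k).comp l221
  have h4 := ((((LipschitzWith.const (1 : ℝ)).add hξ).sub hpos).sub hk)
  exact ⟨_, l21.prodMk (l221.prodMk (l222.prodMk h4))⟩

/-- Cauchy uniqueness for the wave equation. -/
lemma cauchy_unique (k ξ : ℝ) (z z1 z2 z3 z4 w w1 w2 w3 w4 : ℝ → ℝ)
    (d0 : ∀ t, HasDerivAt z (z1 t) t) (d1 : ∀ t, HasDerivAt z1 (z2 t) t)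
    (d2 : ∀ t, HasDerivAt z2 (z3 t) t) (d3 : ∀ t, HasDerivAt z3 (z4 t) t)
    (e0 : ∀ t, HasDerivAt w (w1 t) t) (e1 : ∀ t, HasDerivAt w1 (w2 t) t)
    (e2 : ∀ t, HasDerivAt w2 (w3 t) t) (e3 : ∀ t, HasDerivAt w3 (w4 t) t)
    (hz : ∀ t, z4 t = 1 + ξ * max (-(z t + 1)) 0 - max (z t + 1) 0 - k * z2 t)
    (hw : ∀ t, w4 t = 1 + ξ * max (-(w t + 1)) 0 - max (w t + 1) 0 - k * w2 t)
    (b : ℝ) (h0 : z b = w b) (h1 : z1 b = w1 b) (h2 : z2 b = w2 b) (h3 : z3 b = w3 b) :
    z = w := by
  obtain ⟨K, hK⟩ := lipschitz_field k ξ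
  have hf : ∀ t, HasDerivAt (fun t => (z t, z1 t, z2 t, z3 t))
      (field k ξ (z t, z1 t, z2 t, z3 t)) t ∧ (z t, z1 t, z2 t, z3 t) ∈ (univ : Set (ℝ × ℝ × ℝ × ℝ)) := by
    intro t
    refine ⟨?_, mem_univ _⟩
    have := (d0 t).prodMk ((d1 t).prodMk ((d2 t).prodMk (d3 t)))
    rw [hz t] at this
    exact this
  have hg : ∀ t, HasDerivAt (fun t => (w t, w1 t, w2 t, w3 t))
      (field k ξ (w t, w1 t, w2 t, w3 t)) t ∧ (w t, w1 t, w2 t, w3 t) ∈ (univ : Set (ℝ × ℝ × ℝ × ℝ)) := by
    intro t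
    refine ⟨?_, mem_univ _⟩
    have := (e0 t).prodMk ((e1 t).prodMk ((e2 t).prodMk (e3 t)))
    rw [hw t] at this
    exact this
  have key := ODE_solution_unique_univ (v := fun _ => field k ξ) (s := fun _ => univ) (K := K)
    (t₀ := b) (fun _ => hK.lipschitzOnWith) hf hg (by simp [h0, h1, h2, h3])
  funext t
  have := congrFun key t
  exact congrArg Prod.fst this

/-- The core statement, for an explicit chain of derivatives. -/
lemma core (k ξ : ℝ) (hk : k < 2) (hk2 : -2 < k) (hξ : ξ < 1) (z z1 z2 z3 z4 : ℝ → ℝ)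
    (d0 : ∀ t, HasDerivAt z (z1 t) t) (d1 : ∀ t, HasDerivAt z1 (z2 t) t)
    (d2 : ∀ t, HasDerivAt z2 (z3 t) t) (d3 : ∀ t, HasDerivAt z3 (z4 t) t)
    (hode : ∀ t, z4 t = 1 + ξ * max (-(z t + 1)) 0 - max (z t + 1) 0 - k * z2 t)
    (h0t : Tendsto z atTop (𝓝 0)) (h1t : Tendsto z1 atTop (𝓝 0))
    (h0b : Tendsto z atBot (𝓝 0)) (h1b : Tendsto z1 atBot (𝓝 0))
    (a b : ℝ) (hab : a < b) (htr : ∀ t, z t < -1 ↔ a < t ∧ t < b) :
    ∀ t, z t = z (a + b - t) := by
  set α : ℝ := Real.sqrt (2 - k) / 2 with hα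
  have hsq : Real.sqrt (2 - k) ^ 2 = 2 - k := Real.sq_sqrt (by linarith)
  have hα0 : 0 < α := by
    have := Real.sqrt_pos.2 (show 0 < 2 - k by linarith)
    positivity
  have h4α : 4 * α ^ 2 = 2 - k := by
    rw [hα]; linarith [hsq, show 4 * (Real.sqrt (2 - k) / 2) ^ 2 = Real.sqrt (2 - k) ^ 2 by ring]
  have hα1 : α ^ 2 < 1 := by linarith
  have hcont : Continuous z := continuous_iff_continuousAt.2 fun t => (d0 t).continuousAt
  -- values at the ends
  have hge : ∀ t, ¬ (a < t ∧ t < b) → -1 ≤ z t := fun t ht =>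
    not_lt.1 fun h => ht ((htr t).1 h)
  have hle : ∀ t, a ≤ t → t ≤ b → z t ≤ -1 := by
    intro t hta htb
    have hcl : t ∈ closure (Ioo a b) := by
      rw [closure_Ioo hab.ne]; exact ⟨hta, htb⟩
    have hsub : closure (Ioo a b) ⊆ {t | z t ≤ -1} := by
      refine closure_minimal ?_ (isClosed_le hcont continuous_const)
      intro s hs
      exact ((htr s).2 hs).le
    exact hsub hcl
  have hza : z a = -1 := le_antisymm (hle a le_rfl hab.le) (hge a fun h => lt_irrefl _ h.1)
  have hzb : z b = -1 := le_antisymm (hle b hab.le le_rfl) (hge b fun h => lt_irrefl _ h.2)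
  -- outer equation
  have hout : ∀ t, ¬ (a < t ∧ t < b) → z4 t + k * z2 t + z t = 0 := by
    intro t ht
    have h := hge t ht
    rw [hode t, max_eq_right (by linarith), max_eq_left (by linarith)]
    ring
  have hin : ∀ t, a ≤ t → t ≤ b → z4 t = 1 - ξ - ξ * z t - k * z2 t := by
    intro t hta htb
    have h := hle t hta htb
    rw [hode t, max_eq_left (by linarith), max_eq_right (by linarith)]
    ring
  obtain ⟨r1, r2⟩ := stable_end α k hα0 hα1 h4α z z1 z2 z3 z4 d0 d1 d2 d3 b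
    (fun t ht => hout t fun h => absurd h.2 (not_lt.2 ht)) h0t h1t
  obtain ⟨l1, l2⟩ := unstable_end α k hα0 hα1 h4α z z1 z2 z3 z4 d0 d1 d2 d3 a
    (fun t ht => hout t fun h => absurd h.1 (not_lt.2 ht)) h0b h1b
  -- the second first integral
  set H : ℝ → ℝ := fun t => z2 t * (1 - ξ - ξ * z t) - k / 2 * z2 t ^ 2 - z3 t ^ 2 / 2
    + ξ / 2 * z1 t ^ 2 with hH
  have dH : ∀ t, HasDerivAt H (z3 t * (1 - ξ - ξ * z t) + z2 t * (-(ξ * z1 t))
      - k / 2 * (2 * z2 t * z3 t) - (2 * z3 t * z4 t) / 2 + ξ / 2 * (2 * z1 t * z2 t)) t := by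
    intro t
    have g1 := (d2 t).mul (((d0 t).const_mul ξ).const_sub (1 - ξ))
    have g2 := ((d2 t).pow 2).const_mul (k / 2)
    have g3 := ((d3 t).pow 2).div_const 2
    have g4 := ((d1 t).pow 2).const_mul (ξ / 2)
    have g := ((g1.sub g2).sub g3).add g4
    exact g.congr_deriv (by push_cast; ring)
  have cH : H b = H a := by
    refine constant_of_has_deriv_right_zero (a := a) (b := b) (f := H) ?_ ?_ b ⟨hab.le, le_rfl⟩
    · exact fun s _ => (dH s).continuousAt.continuousWithinAt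
    · intro s hs
      have := (dH s).hasDerivWithinAt (s := Ici s)
      refine this.congr_deriv ?_
      rw [hin s hs.1 hs.2.le]
      ring
  -- values of the Cauchy data at the ends
  have eb2 : z2 b = 1 - 2 * α * z1 b := by rw [hzb] at r1; linarith
  have eb3 : z3 b = (1 - k) * z1 b - 2 * α := by
    have : z3 b = -(2 * α * z2 b) - z1 b := by linarith
    rw [this, eb2]
    linear_combination z1 b * h4α
  have ea2 : z2 a = 1 + 2 * α * z1 a := by rw [hza] at l1; linarith
  have ea3 : z3 a = (1 - k) * z1 a + 2 * α := by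
    have : z3 a = 2 * α * z2 a - z1 a := by linarith
    rw [this, ea2]
    linear_combination z1 a * h4α
  have eHb : H b = -(1 - ξ) / 2 * z1 b ^ 2 := by
    simp only [hH]
    rw [eb3, eb2, hzb]
    have hkα : k = 2 - 4 * α ^ 2 := by linarith
    rw [hkα]
    ring
  have eHa : H a = -(1 - ξ) / 2 * z1 a ^ 2 := by
    simp only [hH]
    rw [ea3, ea2, hza]
    have hkα : k = 2 - 4 * α ^ 2 := by linarith
    rw [hkα]
    ring
  have hsqeq : z1 b ^ 2 = z1 a ^ 2 := by
    have h := cH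
    rw [eHb, eHa] at h
    have h1 : (1 - ξ) * (z1 b ^ 2 - z1 a ^ 2) = 0 := by linarith
    have h2 := (mul_eq_zero.1 h1).resolve_left (by linarith)
    linarith
  -- signs of the slopes
  have hs1 : z1 a ≤ 0 := by
    have h1 : Tendsto (slope z a) (𝓝[>] a) (𝓝 (z1 a)) :=
      (hasDerivAt_iff_tendsto_slope.1 (d0 a)).mono_left
        (nhdsWithin_mono _ fun x hx => ne_of_gt hx)
    refine le_of_tendsto h1 ?_
    filter_upwards [Ioo_mem_nhdsGT hab] with t ht
    have h2 := (htr t).2 ht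
    rw [slope_def_field, hza]
    exact div_nonpos_of_nonpos_of_nonneg (by linarith) (by linarith [ht.1])
  have hs2 : 0 ≤ z1 b := by
    have h1 : Tendsto (slope z b) (𝓝[<] b) (𝓝 (z1 b)) :=
      (hasDerivAt_iff_tendsto_slope.1 (d0 b)).mono_left
        (nhdsWithin_mono _ fun x hx => ne_of_lt hx)
    refine ge_of_tendsto h1 ?_
    filter_upwards [Ioo_mem_nhdsLT hab] with t ht
    have h2 := (htr t).2 ht
    rw [slope_def_field, hzb]
    exact div_nonneg_of_nonpos (by linarith) (by linarith [ht.2])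
  have hs : z1 b = -(z1 a) := by
    have h1 : (z1 b - z1 a) * (z1 b + z1 a) = 0 := by linear_combination hsqeq
    rcases mul_eq_zero.1 h1 with h | h
    · have h2 : z1 b = z1 a := by linarith
      have h3 : z1 a = 0 := le_antisymm hs1 (by linarith)
      rw [h2, h3]; simp
    · linarith
  -- reflect
  have dr : ∀ {f f' : ℝ → ℝ}, (∀ t, HasDerivAt f (f' t) t) →
      ∀ t, HasDerivAt (fun t => f (a + b - t)) (-(f' (a + b - t))) t := by
    intro f f' hf t
    have := (hf (a + b - t)).comp t ((hasDerivAt_id t).const_sub (a + b))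
    exact this.congr_deriv (by ring)
  have dr' : ∀ {f f' : ℝ → ℝ}, (∀ t, HasDerivAt f (f' t) t) →
      ∀ t, HasDerivAt (fun t => -(f (a + b - t))) (f' (a + b - t)) t := by
    intro f f' hf t
    have := (dr hf t).neg
    exact this.congr_deriv (by ring)
  have hab' : a + b - b = a := by ring
  have hfin := cauchy_unique k ξ z z1 z2 z3 z4 (fun t => z (a + b - t))
    (fun t => -(z1 (a + b - t))) (fun t => z2 (a + b - t)) (fun t => -(z3 (a + b - t)))
    (fun t => z4 (a + b - t)) d0 d1 d2 d3 (dr d0) (dr' d1) (dr d2) (dr' d3) hode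
    (fun t => hode (a + b - t)) b (by simp only [hab']; rw [hza, hzb])
    (by simp only [hab']; exact hs)
    (by simp only [hab']; rw [eb2, ea2, hs]; ring)
    (by simp only [hab']; rw [eb3, ea3, hs]; ring)
  intro t
  exact congrFun hfin t

/-- A bounded-below global solution that never drops below `-1` vanishes identically. -/
lemma no_drop (k ξ : ℝ) (hk : k < 2) (hk2 : -2 < k) (z z1 z2 z3 z4 : ℝ → ℝ)
    (d0 : ∀ t, HasDerivAt z (z1 t) t) (d1 : ∀ t, HasDerivAt z1 (z2 t) t)
    (d2 : ∀ t, HasDerivAt z2 (z3 t) t) (d3 : ∀ t, HasDerivAt z3 (z4 t) t)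
    (hode : ∀ t, z4 t = 1 + ξ * max (-(z t + 1)) 0 - max (z t + 1) 0 - k * z2 t)
    (h0t : Tendsto z atTop (𝓝 0)) (h1t : Tendsto z1 atTop (𝓝 0))
    (h0b : Tendsto z atBot (𝓝 0)) (h1b : Tendsto z1 atBot (𝓝 0))
    (hge : ∀ t, -1 ≤ z t) : ∀ t, z t = 0 := by
  set α : ℝ := Real.sqrt (2 - k) / 2 with hα
  have hsq : Real.sqrt (2 - k) ^ 2 = 2 - k := Real.sq_sqrt (by linarith)
  have hα0 : 0 < α := by
    have := Real.sqrt_pos.2 (show 0 < 2 - k by linarith)
    positivity
  have h4α : 4 * α ^ 2 = 2 - k := by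
    rw [hα]; linarith [hsq, show 4 * (Real.sqrt (2 - k) / 2) ^ 2 = Real.sqrt (2 - k) ^ 2 by ring]
  have hα1 : α ^ 2 < 1 := by linarith
  have hout : ∀ t, z4 t + k * z2 t + z t = 0 := by
    intro t
    have h := hge t
    rw [hode t, max_eq_right (by linarith), max_eq_left (by linarith)]
    ring
  have hr : ∀ b, z2 b + 2 * α * z1 b + z b = 0 ∧ z3 b + 2 * α * z2 b + z1 b = 0 := fun b =>
    stable_end α k hα0 hα1 h4α z z1 z2 z3 z4 d0 d1 d2 d3 b (fun t _ => hout t) h0t h1t
  have hl : ∀ a, z2 a - 2 * α * z1 a + z a = 0 ∧ z3 a - 2 * α * z2 a + z1 a = 0 := fun a =>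
    unstable_end α k hα0 hα1 h4α z z1 z2 z3 z4 d0 d1 d2 d3 a (fun t _ => hout t) h0b h1b
  intro t
  have h1 : α * z2 t = 0 := by linarith [(hr t).2, (hl t).2]
  have h2 : α * z1 t = 0 := by linarith [(hr t).1, (hl t).1]
  have h3 := (mul_eq_zero.1 h1).resolve_left hα0.ne'
  have h4 := (mul_eq_zero.1 h2).resolve_left hα0.ne'
  have h5 := (hr t).1
  rw [h3, h4] at h5
  linarith

/-- If a solution takes the value `-1` at exactly two points, it drops below `-1` exactly on the
open interval between them. -/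
lemma drop_of_two (k ξ : ℝ) (hk : k < 2) (hk2 : -2 < k) (z z1 z2 z3 z4 : ℝ → ℝ)
    (d0 : ∀ t, HasDerivAt z (z1 t) t) (d1 : ∀ t, HasDerivAt z1 (z2 t) t)
    (d2 : ∀ t, HasDerivAt z2 (z3 t) t) (d3 : ∀ t, HasDerivAt z3 (z4 t) t)
    (hode : ∀ t, z4 t = 1 + ξ * max (-(z t + 1)) 0 - max (z t + 1) 0 - k * z2 t)
    (h0t : Tendsto z atTop (𝓝 0)) (h1t : Tendsto z1 atTop (𝓝 0))
    (h0b : Tendsto z atBot (𝓝 0)) (h1b : Tendsto z1 atBot (𝓝 0))
    (a b : ℝ) (hab : a < b) (htwo : ∀ t, z t = -1 ↔ t = a ∨ t = b) :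
    ∀ t, z t < -1 ↔ a < t ∧ t < b := by
  have hcont : Continuous z := continuous_iff_continuousAt.2 fun t => (d0 t).continuousAt
  have hright : ∀ t, b < t → -1 < z t := by
    intro t ht
    by_contra hcon
    push Not at hcon
    have hev : ∀ᶠ s in atTop, -1 < z s := h0t.eventually (lt_mem_nhds (by norm_num))
    obtain ⟨s, hs1, hs2⟩ := (hev.and (eventually_ge_atTop t)).exists
    obtain ⟨r, hr, hzr⟩ := intermediate_value_Icc hs2 hcont.continuousOn ⟨hcon, hs1.le⟩
    rcases (htwo r).1 hzr with h | h <;> rw [h] at hr <;> linarith [hr.1]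
  have hleft : ∀ t, t < a → -1 < z t := by
    intro t ht
    by_contra hcon
    push Not at hcon
    have hev : ∀ᶠ s in atBot, -1 < z s := h0b.eventually (lt_mem_nhds (by norm_num))
    obtain ⟨s, hs1, hs2⟩ := (hev.and (eventually_le_atBot t)).exists
    obtain ⟨r, hr, hzr⟩ := intermediate_value_Icc' hs2 hcont.continuousOn ⟨hcon, hs1.le⟩
    rcases (htwo r).1 hzr with h | h <;> rw [h] at hr <;> linarith [hr.2]
  have hza : z a = -1 := (htwo a).2 (Or.inl rfl)
  have hzb : z b = -1 := (htwo b).2 (Or.inr rfl)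
  have hmid : ∀ t, a < t → t < b → z t < -1 := by
    by_contra hcon
    push Not at hcon
    obtain ⟨t, hta, htb, hzt⟩ := hcon
    have hzt' : -1 < z t := lt_of_le_of_ne hzt fun h => by
      rcases (htwo t).1 h.symm with h | h <;> linarith
    have hge : ∀ s, -1 ≤ z s := by
      intro s
      by_contra hs
      push Not at hs
      rcases lt_or_ge s a with h | h
      · linarith [hleft s h]
      rcases lt_or_ge b s with h' | h'
      · linarith [hright s h']
      have hsa : s ≠ a := fun e => by rw [e, hza] at hs; linarith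
      have hsb : s ≠ b := fun e => by rw [e, hzb] at hs; linarith
      have hsa' := lt_of_le_of_ne h (Ne.symm hsa)
      have hsb' := lt_of_le_of_ne h' hsb
      rcases le_total s t with hst | hst
      · obtain ⟨r, hr, hzr⟩ := intermediate_value_Icc hst hcont.continuousOn ⟨hs.le, hzt⟩
        rcases (htwo r).1 hzr with e | e <;> rw [e] at hr <;> linarith [hr.1, hr.2]
      · obtain ⟨r, hr, hzr⟩ := intermediate_value_Icc' hst hcont.continuousOn ⟨hs.le, hzt⟩
        rcases (htwo r).1 hzr with e | e <;> rw [e] at hr <;> linarith [hr.1, hr.2]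
    have h0 := no_drop k ξ hk hk2 z z1 z2 z3 z4 d0 d1 d2 d3 hode h0t h1t h0b h1b hge a
    rw [hza] at h0
    norm_num at h0
  intro t
  constructor
  · intro ht
    constructor
    · by_contra h
      push Not at h
      rcases h.lt_or_eq with h | h
      · linarith [hleft t h]
      · rw [h, hza] at ht; linarith
    · by_contra h
      push Not at h
      rcases h.lt_or_eq with h | h
      · linarith [hright t h]
      · rw [← h, hzb] at ht; linarith
  · exact fun h => hmid t h.1 h.2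

/-- **Every one-troughed travelling wave is even.**  Let `c² < 2` and `ξ < 1`, and let `z` be a `C⁴`
function with `z'''' + c² z'' + (z+1)⁺ - ξ (z+1)⁻ - 1 = 0` and `z, z' → 0` at `±∞`.  If `z` drops
below `-1` on exactly one interval, or if `z = -1` at exactly two points, then a translate of `z`
is even. -/
theorem result (c ξ : ℝ) (hc : c ^ 2 < 2) (hξ : ξ < 1) (z : ℝ → ℝ) (hz : ContDiff ℝ 4 z)
    (hode : ∀ t : ℝ, iteratedDeriv 4 z t + c ^ 2 * iteratedDeriv 2 z t + max (z t + 1) 0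
      - ξ * max (-(z t + 1)) 0 - 1 = 0)
    (h0t : Tendsto z atTop (𝓝 0)) (h1t : Tendsto (deriv z) atTop (𝓝 0))
    (h0b : Tendsto z atBot (𝓝 0)) (h1b : Tendsto (deriv z) atBot (𝓝 0))
    (hone : (∃ a b : ℝ, a < b ∧ {t : ℝ | z t < -1} = Ioo a b) ∨ {t : ℝ | z t = -1}.encard = 2) :
    ∃ t₀ : ℝ, ∀ t : ℝ, z (t₀ + t) = z (t₀ - t) := by
  have dd : ∀ m : ℕ, m < 4 → ∀ t, HasDerivAt (iteratedDeriv m z) (iteratedDeriv (m + 1) z t) t := by
    intro m hm t
    rw [iteratedDeriv_succ]
    exact ((hz.differentiable_iteratedDeriv m (by exact_mod_cast hm)) t).hasDerivAt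
  have e0 : iteratedDeriv 0 z = z := iteratedDeriv_zero
  have e1 : iteratedDeriv 1 z = deriv z := iteratedDeriv_one
  have d0 : ∀ t, HasDerivAt z (deriv z t) t := by
    have := dd 0 (by norm_num); rw [e0, zero_add, e1] at this; exact this
  have d1 : ∀ t, HasDerivAt (deriv z) (iteratedDeriv 2 z t) t := by
    have := dd 1 (by norm_num); rw [e1] at this; exact this
  have d2 := dd 2 (by norm_num)
  have d3 := dd 3 (by norm_num)
  have hode' : ∀ t, iteratedDeriv (3 + 1) z t = 1 + ξ * max (-(z t + 1)) 0 - max (z t + 1) 0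
      - c ^ 2 * iteratedDeriv 2 z t := by
    intro t
    have := hode t
    linarith
  have hk2 : -2 < c ^ 2 := by nlinarith [sq_nonneg c]
  have main : ∀ a b : ℝ, a < b → (∀ t, z t < -1 ↔ a < t ∧ t < b) →
      ∃ t₀ : ℝ, ∀ t : ℝ, z (t₀ + t) = z (t₀ - t) := by
    intro a b hab htr
    refine ⟨(a + b) / 2, fun t => ?_⟩
    have := core (c ^ 2) ξ hc hk2 hξ z _ _ _ _ d0 d1 d2 d3 hode' h0t h1t h0b h1b a b hab htr
      ((a + b) / 2 + t)
    rw [this]
    congr 1
    ring
  rcases hone with ⟨a, b, hab, hset⟩ | htwo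
  · refine main a b hab fun t => ?_
    have := Set.ext_iff.1 hset t
    simpa using this
  · obtain ⟨a, b, hne, hset⟩ := Set.encard_eq_two.1 htwo
    have hiff : ∀ t, z t = -1 ↔ t = a ∨ t = b := by
      intro t
      have := Set.ext_iff.1 hset t
      simpa using this
    rcases lt_or_gt_of_ne hne with hab | hab
    · exact main a b hab (drop_of_two (c ^ 2) ξ hc hk2 z _ _ _ _ d0 d1 d2 d3 hode' h0t h1t h0b h1b
        a b hab hiff)
    · exact main b a hab (drop_of_two (c ^ 2) ξ hc hk2 z _ _ _ _ d0 d1 d2 d3 hode' h0t h1t h0b h1b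
        b a hab (fun t => (hiff t).trans or_comm))

end Pool.Agent.Results.MP_55ecfc_an.OneTroughedEven
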